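import Pool.Agent.V11253.TD.Om

set_option autoImplicit false

/-!
A set `A` computable in the omega-jump such that no set of the degree of `A` is many-one reducible to
the omega-jump.
-/

namespace Pool.Agent.V11253.TD

open Encodable Pool.Agent.Helper227
open Nat.Partrec (Code)

/-- The string with code `n`. -/
def str (n : ℕ) : List Bool := (Denumerable.ofNat (List ℕ) n).map fun k => k == 1

theorem exists_str (ρ : List Bool) : ∃ n, str n = ρ := by
  refine ⟨encode (ρ.map Bool.toNat), ?_⟩
  simp only [str, Denumerable.ofNat_encode, List.map_map]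
  conv_rhs => rw [← List.map_id ρ]
  refine List.map_congr_left fun b _ => ?_
  cases b <;> rfl

theorem primrec_str : Primrec str := by
  refine Primrec.list_map (Primrec.ofNat (List ℕ)) ?_
  exact (Primrec.beq.comp Primrec.snd (Primrec.const 1))

/-- Evidence: a number `x`, a value `z`, the codes of two strings and a bound. -/
abbrev Ed : Type := (ℕ × ℕ) × (ℕ × ℕ) × ℕ

/-- The evidence with code `w`. -/
def ed (w : ℕ) : Ed := Denumerable.ofNat Ed w

theorem primrec_ed : Primrec ed := Primrec.ofNat Ed

theorem exists_ed (e : Ed) : ∃ w, ed w = e := ⟨encode e, Denumerable.ofNat_encode e⟩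

attribute [irreducible] ed

/-- The `i`-th functional has different values at `x` for two extensions of `σ`, and the `k`-th
function is defined at `x`; `j` codes `(i, k)`. -/
def Spl (j : ℕ) (σ : List Bool) (w : Ed) : Prop :=
  ((Code.evaln w.2.2 (Denumerable.ofNat Code j.unpair.1)
    (encode (σ ++ str w.2.1.1, (w.1.1, true)))).isSome = true ∧
  (Code.evaln w.2.2 (Denumerable.ofNat Code j.unpair.1)
    (encode (σ ++ str w.2.1.2, (w.1.1, false)))).isSome = true) ∧
  Code.evaln w.2.2 (Denumerable.ofNat Code j.unpair.2) w.1.1 = some w.1.2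

theorem primrec_spl : PrimrecPred fun p : (ℕ × List Bool) × Ed => Spl p.1.1 p.1.2 p.2 := by
  have hj : Primrec fun p : (ℕ × List Bool) × Ed => p.1.1 := Primrec.fst.comp Primrec.fst
  have hσ : Primrec fun p : (ℕ × List Bool) × Ed => p.1.2 := Primrec.snd.comp Primrec.fst
  have hx : Primrec fun p : (ℕ × List Bool) × Ed => p.2.1.1 :=
    Primrec.fst.comp (Primrec.fst.comp Primrec.snd)
  have hz : Primrec fun p : (ℕ × List Bool) × Ed => p.2.1.2 :=
    Primrec.snd.comp (Primrec.fst.comp Primrec.snd)
  have h1 : Primrec fun p : (ℕ × List Bool) × Ed => str p.2.2.1.1 :=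
    primrec_str.comp (Primrec.fst.comp (Primrec.fst.comp (Primrec.snd.comp Primrec.snd)))
  have h2 : Primrec fun p : (ℕ × List Bool) × Ed => str p.2.2.1.2 :=
    primrec_str.comp (Primrec.snd.comp (Primrec.fst.comp (Primrec.snd.comp Primrec.snd)))
  have hs : Primrec fun p : (ℕ × List Bool) × Ed => p.2.2.2 :=
    Primrec.snd.comp (Primrec.snd.comp Primrec.snd)
  have hc1 : Primrec fun p : (ℕ × List Bool) × Ed => Denumerable.ofNat Code p.1.1.unpair.1 :=
    (Primrec.ofNat Code).comp (Primrec.fst.comp (Primrec.unpair.comp hj))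
  have hc2 : Primrec fun p : (ℕ × List Bool) × Ed => Denumerable.ofNat Code p.1.1.unpair.2 :=
    (Primrec.ofNat Code).comp (Primrec.snd.comp (Primrec.unpair.comp hj))
  unfold Spl
  refine PrimrecPred.and (PrimrecPred.and ?_ ?_) ?_
  · refine Primrec.eq.comp (Primrec.option_isSome.comp (Nat.Partrec.Code.primrec_evaln.comp
      ((hs.pair hc1).pair (Primrec.encode.comp ?_)))) (Primrec.const true)
    exact (Primrec.list_append.comp hσ h1).pair (hx.pair (Primrec.const true))
  · refine Primrec.eq.comp (Primrec.option_isSome.comp (Nat.Partrec.Code.primrec_evaln.comp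
      ((hs.pair hc1).pair (Primrec.encode.comp ?_)))) (Primrec.const true)
    exact (Primrec.list_append.comp hσ h2).pair (hx.pair (Primrec.const false))
  · exact Primrec.eq.comp (Nat.Partrec.Code.primrec_evaln.comp ((hs.pair hc2).pair hx))
      (Primrec.option_some.comp hz)

/-- The extension chosen for the evidence `w`. -/
noncomputable def pick (σ : List Bool) (w : Ed) : List Bool :=
  σ ++ str (if Omega w.1.2 = true then w.2.1.2 else w.2.1.1) ++ [false]

/-- One step of the construction. -/
def Vst (j : ℕ) (σ τ : List Bool) : Prop :=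
  (∃ w : ℕ, (Spl j σ (ed w) ∧
    ∀ w' < w, ¬ Spl j σ (ed w')) ∧ τ = pick σ (ed w)) ∨
  ((¬ ∃ w : ℕ, Spl j σ (ed w)) ∧ τ = σ ++ [false])

theorem exists_vst (j : ℕ) (σ : List Bool) : ∃ τ, Vst j σ τ := by
  classical
  by_cases h : ∃ w : ℕ, Spl j σ (ed w)
  · exact ⟨_, Or.inl ⟨Nat.find h, ⟨Nat.find_spec h, fun w' hw' => Nat.find_min h hw'⟩, rfl⟩⟩
  · exact ⟨_, Or.inr ⟨h, rfl⟩⟩

theorem vst_unique {j : ℕ} {σ τ τ' : List Bool} (h : Vst j σ τ) (h' : Vst j σ τ') : τ = τ' := by
  rcases h with ⟨w, ⟨h1, h2⟩, rfl⟩ | ⟨h1, rfl⟩ <;>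
    rcases h' with ⟨w', ⟨h1', h2'⟩, rfl⟩ | ⟨h1', rfl⟩
  · rcases lt_trichotomy w w' with h | h | h
    · exact absurd h1 (h2' w h)
    · rw [h]
    · exact absurd h1' (h2 w' h)
  · exact absurd ⟨w, h1⟩ h1'
  · exact absurd ⟨w', h1'⟩ h1
  · rfl

theorem vst_len {j : ℕ} {σ τ : List Bool} (h : Vst j σ τ) :
    σ <+: τ ∧ σ.length < τ.length := by
  rcases h with ⟨w, -, rfl⟩ | ⟨-, rfl⟩
  · unfold pick
    rw [List.append_assoc]
    exact ⟨List.prefix_append _ _, by simp⟩
  · exact ⟨List.prefix_append _ _, by simp⟩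

/-- The strings of the construction. -/
noncomputable def st : ℕ → List Bool
  | 0 => []
  | j + 1 => (exists_vst j (st j)).choose

theorem st_vst (j : ℕ) : Vst j (st j) (st (j + 1)) := (exists_vst j (st j)).choose_spec

theorem st_mono {i j : ℕ} (h : i ≤ j) : st i <+: st j := by
  induction j, h using Nat.le_induction with
  | base => exact List.prefix_rfl
  | succ j _ ih => exact ih.trans (vst_len (st_vst j)).1

theorem st_len (j : ℕ) : j ≤ (st j).length := by
  induction j with
  | zero => exact Nat.zero_le _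
  | succ j ih =>
    have := (vst_len (st_vst j)).2
    omega

/-- The set. -/
noncomputable def AA (n : ℕ) : Bool := (st (n + 1)).getD n false

theorem AA_eq {n j : ℕ} (h : n < (st j).length) : (st j)[n] = AA n := by
  have h1 : n < (st (n + 1)).length := by
    have := st_len (n + 1)
    omega
  have h2 : AA n = (st (n + 1))[n] := by
    simp [AA, List.getD, h1]
  rw [h2]
  rcases le_total j (n + 1) with h3 | h3
  · exact (st_mono h3).getElem h
  · exact ((st_mono h3).getElem h1).symm

theorem st_pre (j : ℕ) : st j = pre AA (st j).length := by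
  refine List.ext_getElem (by simp) fun i h1 h2 => ?_
  rw [getElem_pre, AA_eq h1]

theorem si_vst : SI Omega fun p : (ℕ × List Bool) × List Bool => Vst p.1.1 p.1.2 p.2 := by
  have hsp : PrimrecPred fun p : (ℕ × List Bool) × ℕ =>
      Spl p.1.1 p.1.2 (ed p.2) :=
    primrec_spl.comp (Primrec.fst.pair (primrec_ed.comp Primrec.snd))
  unfold Vst
  refine SI.or ?_ ?_
  · refine SI.ex (p := fun (p : (ℕ × List Bool) × List Bool) (w : ℕ) =>
      (Spl p.1.1 p.1.2 (ed w) ∧
        ∀ w' < w, ¬ Spl p.1.1 p.1.2 (ed w')) ∧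
      p.2 = pick p.1.2 (ed w)) (SI.and (SI.and ?_ ?_) ?_)
    · exact SI.of_prim (hsp.comp ((Primrec.fst.comp Primrec.fst).pair Primrec.snd))
    · refine SI.all_lt (α := ((ℕ × List Bool) × List Bool) × ℕ)
        (p := fun x w' => ¬ Spl x.1.1.1 x.1.1.2 (ed w')) (f := fun x => x.2)
        (SI.of_prim ?_) Primrec.snd
      exact PrimrecPred.not (hsp.comp
        ((Primrec.fst.comp (Primrec.fst.comp Primrec.fst)).pair Primrec.snd))
    · have h1 : SI Omega fun x : ((ℕ × List Bool) × List Bool) × ℕ =>
          (Omega (ed x.2).1.2 = true ∧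
            x.1.2 = x.1.1.2 ++ str (ed x.2).2.1.2 ++ [false]) ∨
          (Omega (ed x.2).1.2 = false ∧
            x.1.2 = x.1.1.2 ++ str (ed x.2).2.1.1 ++ [false]) := by
        have hw : Primrec fun x : ((ℕ × List Bool) × List Bool) × ℕ => ed x.2 :=
          primrec_ed.comp Primrec.snd
        have hz : Primrec fun x : ((ℕ × List Bool) × List Bool) × ℕ =>
            (ed x.2).1.2 := Primrec.snd.comp (Primrec.fst.comp hw)
        have ha : Primrec fun x : ((ℕ × List Bool) × List Bool) × ℕ =>
            str (ed x.2).2.1.1 :=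
          primrec_str.comp (Primrec.fst.comp (Primrec.fst.comp (Primrec.snd.comp hw)))
        have hb : Primrec fun x : ((ℕ × List Bool) × List Bool) × ℕ =>
            str (ed x.2).2.1.2 :=
          primrec_str.comp (Primrec.snd.comp (Primrec.fst.comp (Primrec.snd.comp hw)))
        have hs : Primrec fun x : ((ℕ × List Bool) × List Bool) × ℕ => x.1.1.2 :=
          Primrec.snd.comp (Primrec.fst.comp Primrec.fst)
        have ht : Primrec fun x : ((ℕ × List Bool) × List Bool) × ℕ => x.1.2 :=
          Primrec.snd.comp Primrec.fst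
        refine SI.or (SI.and ?_ (SI.of_prim ?_)) (SI.and ?_ (SI.of_prim ?_))
        · exact SI.query.comp (f := fun x : ((ℕ × List Bool) × List Bool) × ℕ =>
            ((ed x.2).1.2, true)) (hz.pair (Primrec.const true))
        · exact Primrec.eq.comp ht (Primrec.list_append.comp (Primrec.list_append.comp hs hb)
            (Primrec.const [false]))
        · exact SI.query.comp (f := fun x : ((ℕ × List Bool) × List Bool) × ℕ =>
            ((ed x.2).1.2, false)) (hz.pair (Primrec.const false))
        · exact Primrec.eq.comp ht (Primrec.list_append.comp (Primrec.list_append.comp hs ha)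
            (Primrec.const [false]))
      refine h1.of_eq fun x => ?_
      unfold pick
      cases h : Omega (ed x.2).1.2 <;> simp
  · refine SI.and ?_ (SI.of_prim ?_)
    · have h1 : USI fun (_ : ℕ → Bool) (p : ℕ × List Bool) =>
          ∃ w : ℕ, Spl p.1 p.2 (ed w) :=
        USI.of_s1 (S1.ex (S1.of_prim hsp))
      obtain ⟨q, hq, hq2⟩ := h1.to_jump
      have h2 : Computable fun p : (ℕ × List Bool) × List Bool => (Nat.pair 1 (q p.1), false) :=
        Computable.pair (Primrec₂.natPair.to_comp.comp (Computable.const 1)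
          (hq.comp Computable.fst)) (Computable.const false)
      refine (SI.comp_computable (SI.query (B := Omega)) h2).of_eq fun p => ?_
      rw [hq2 (Jmp 0)]
      simp only [Omega, Nat.unpair_pair]
      show jump (Jmp 0) (q p.1) = false ↔ _
      simp
    · exact Primrec.eq.comp Primrec.snd (Primrec.list_append.comp (Primrec.snd.comp Primrec.fst)
        (Primrec.const [false]))

theorem AA_le : TLe AA Omega := by
  rw [tLe_iff_SI]
  have h1 : SI Omega fun x : ℕ × Bool => ∃ h : List (List Bool),
      (h.getD 0 [] = [] ∧ ∀ j < x.1 + 1, Vst j (h.getD j []) (h.getD (j + 1) [])) ∧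
      (h.getD (x.1 + 1) []).getD x.1 false = x.2 := by
    refine SI.ex (p := fun (x : ℕ × Bool) (h : List (List Bool)) =>
      (h.getD 0 [] = [] ∧ ∀ j < x.1 + 1, Vst j (h.getD j []) (h.getD (j + 1) [])) ∧
      (h.getD (x.1 + 1) []).getD x.1 false = x.2) (SI.and (SI.and (SI.of_prim ?_) ?_)
      (SI.of_prim ?_))
    · exact Primrec.eq.comp ((Primrec.list_getD []).comp Primrec.snd (Primrec.const 0))
        (Primrec.const [])
    · refine SI.all_lt (α := (ℕ × Bool) × List (List Bool))
        (p := fun x j => Vst j (x.2.getD j []) (x.2.getD (j + 1) [])) (f := fun x => x.1.1 + 1)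
        ?_ (Primrec.succ.comp (Primrec.fst.comp Primrec.fst))
      refine si_vst.comp (f := fun x : ((ℕ × Bool) × List (List Bool)) × ℕ =>
        ((x.2, x.1.2.getD x.2 []), x.1.2.getD (x.2 + 1) [])) ?_
      exact (Primrec.snd.pair ((Primrec.list_getD []).comp (Primrec.snd.comp Primrec.fst)
        Primrec.snd)).pair ((Primrec.list_getD []).comp (Primrec.snd.comp Primrec.fst)
        (Primrec.succ.comp Primrec.snd))
    · exact Primrec.eq.comp ((Primrec.list_getD false).comp ((Primrec.list_getD []).comp Primrec.snd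
        (Primrec.succ.comp (Primrec.fst.comp Primrec.fst))) (Primrec.fst.comp Primrec.fst))
        (Primrec.snd.comp Primrec.fst)
  refine h1.of_eq ?_
  rintro ⟨n, b⟩
  simp only
  constructor
  · rintro ⟨h, ⟨h2, h3⟩, h4⟩
    have h5 : ∀ j ≤ n + 1, h.getD j [] = st j := by
      intro j
      induction j with
      | zero => exact fun _ => h2
      | succ j ih =>
        intro hj
        have h6 := h3 j (by omega)
        rw [ih (by omega)] at h6
        exact vst_unique h6 (st_vst j)
    rw [h5 (n + 1) le_rfl] at h4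
    exact h4
  · intro h2
    have h5 : ∀ j ≤ n + 1, ((List.range (n + 2)).map st).getD j [] = st j := by
      intro j hj
      have : j < n + 2 := by omega
      simp [List.getD, this]
    refine ⟨(List.range (n + 2)).map st, ⟨h5 0 (by omega), fun j hj => ?_⟩, ?_⟩
    · rw [h5 j (by omega), h5 (j + 1) (by omega)]
      exact st_vst j
    · rw [h5 (n + 1) le_rfl]
      exact h2

/-- The requirement `(E, f)`: if `f` is computable and `E` is a functional that computes `B` from
`AA` and `B` is reducible to the omega-jump by `f`, then there is a string of the construction above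
which the functional is not split. -/
theorem req {E : List Bool × (ℕ × Bool) → Prop} (hE : S1 E)
    (mE : ∀ σ τ a, σ <+: τ → E (σ, a) → E (τ, a)) {B : ℕ → Bool}
    (eE : ∀ a : ℕ × Bool, B a.1 = a.2 ↔ ∃ s, E (pre AA s, a)) {f : ℕ → ℕ} (hf : Computable f)
    (hfB : ∀ m, B m = Omega (f m)) :
    ∃ σ, σ = pre AA σ.length ∧ ∀ x ρ ρ', ¬ (E (σ ++ ρ, (x, true)) ∧ E (σ ++ ρ', (x, false))) := by
  obtain ⟨c, hc⟩ := Nat.Partrec.Code.exists_code.1 hE.re
  obtain ⟨d, hd⟩ := Nat.Partrec.Code.exists_code.1 (Partrec.nat_iff.1 hf.partrec)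
  have hc' : ∀ a, E a ↔ ∃ k, (Code.evaln k c (encode a)).isSome = true := by
    intro a
    have h1 : (c.eval (encode a)).Dom ↔ E a := by
      rw [hc]
      simp [Part.assert]
    rw [← h1]
    constructor
    · intro h
      obtain ⟨y, hy⟩ := Part.dom_iff_mem.1 h
      obtain ⟨k, hk⟩ := Nat.Partrec.Code.evaln_complete.1 hy
      exact ⟨k, Option.isSome_iff_exists.2 ⟨y, hk⟩⟩
    · rintro ⟨n, hn⟩
      obtain ⟨y, hy⟩ := Option.isSome_iff_exists.1 hn
      exact Part.dom_iff_mem.2 ⟨y, Nat.Partrec.Code.evaln_sound hy⟩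
  have hmono : ∀ {k l : ℕ} {a : List Bool × ℕ × Bool}, k ≤ l →
      (Code.evaln k c (encode a)).isSome = true → (Code.evaln l c (encode a)).isSome = true := by
    intro k l a hkl h
    obtain ⟨y, hy⟩ := Option.isSome_iff_exists.1 h
    exact Option.isSome_iff_exists.2 ⟨y, Nat.Partrec.Code.evaln_mono hkl hy⟩
  set j := Nat.pair (encode c) (encode d) with hj
  have hj1 : Denumerable.ofNat Code j.unpair.1 = c := by simp [hj]
  have hj2 : Denumerable.ofNat Code j.unpair.2 = d := by simp [hj]
  refine ⟨st j, st_pre j, ?_⟩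
  rintro x ρ ρ' ⟨h1, h2⟩
  obtain ⟨k1, hk1⟩ := (hc' _).1 h1
  obtain ⟨k2, hk2⟩ := (hc' _).1 h2
  have h3 : f x ∈ d.eval x := by
    rw [hd]
    simp
  obtain ⟨k3, hk3⟩ := Nat.Partrec.Code.evaln_complete.1 h3
  have hex : ∃ w : ℕ, Spl j (st j) (ed w) := by
    obtain ⟨r, hr⟩ := exists_str ρ
    obtain ⟨r', hr'⟩ := exists_str ρ'
    obtain ⟨w, hw⟩ := exists_ed ((x, f x), (r, r'), max k1 (max k2 k3))
    refine ⟨w, ?_⟩
    rw [hw]
    unfold Spl
    rw [hj1, hj2]
    simp only [hr, hr']
    exact ⟨⟨hmono (le_max_left _ _) hk1, hmono ((le_max_left _ _).trans (le_max_right _ _)) hk2⟩,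
      Nat.Partrec.Code.evaln_mono ((le_max_right _ _).trans (le_max_right _ _)) hk3⟩
  rcases st_vst j with ⟨w, ⟨h4, -⟩, h5⟩ | ⟨h4, -⟩
  · set W := ed w
    unfold Spl at h4
    rw [hj1, hj2] at h4
    obtain ⟨⟨h6, h7⟩, h8⟩ := h4
    have h9 : W.1.2 = f W.1.1 := by
      have := Nat.Partrec.Code.evaln_sound h8
      rw [hd] at this
      simpa using this
    have h10 : ∀ ρ b, st (j + 1) = st j ++ ρ ++ [false] → E (st j ++ ρ, (W.1.1, b)) →
        B W.1.1 = b := by
      intro ρ b h h'
      refine (eE (W.1.1, b)).2 ⟨(st (j + 1)).length, ?_⟩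
      rw [← st_pre, h]
      exact mE _ _ _ (List.prefix_append _ _) h'
    unfold pick at h5
    cases h11 : Omega W.1.2 with
    | true =>
      rw [h11, if_pos rfl] at h5
      have h12 := h10 _ false h5 ((hc' _).2 ⟨_, h7⟩)
      rw [hfB, ← h9, h11] at h12
      exact absurd h12 (by decide)
    | false =>
      rw [h11, if_neg (by decide)] at h5
      have h12 := h10 _ true h5 ((hc' _).2 ⟨_, h6⟩)
      rw [hfB, ← h9, h11] at h12
      exact absurd h12 (by decide)
  · exact h4 hex

/-- `AA` is not many-one reducible to the omega-jump. -/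
theorem AA_not_m {f : ℕ → ℕ} (hf : Computable f) (h : ∀ m, AA m = Omega (f m)) : False := by
  obtain ⟨E, hE, mE, eE⟩ := USI.query
  obtain ⟨σ, -, h2⟩ := req hE mE (B := AA) (fun a => eE AA a) hf h
  have key : ∀ b : Bool, ∃ ρ, E (σ ++ ρ, (σ.length, b)) := by
    intro b
    obtain ⟨s, hs⟩ := (eE (fun n => (σ ++ [b]).getD n false) (σ.length, b)).1 (by simp)
    have h3 : pre (fun n => (σ ++ [b]).getD n false) (max s σ.length) =
        σ ++ (pre (fun n => (σ ++ [b]).getD n false) (max s σ.length)).drop σ.length := by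
      have h4 : (pre (fun n => (σ ++ [b]).getD n false) (max s σ.length)).take σ.length = σ := by
        rw [take_pre _ _ _ (le_max_right _ _)]
        refine List.ext_getElem (by simp) fun i h5 h6 => ?_
        rw [getElem_pre]
        simp [List.getD, List.getElem?_append_left h6, h6]
      conv_lhs => rw [← List.take_append_drop σ.length
        (pre (fun n => (σ ++ [b]).getD n false) (max s σ.length)), h4]
    refine ⟨(pre (fun n => (σ ++ [b]).getD n false) (max s σ.length)).drop σ.length, ?_⟩
    rw [← h3]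
    exact mE _ _ _ (pre_prefix _ (le_max_left _ _)) hs
  obtain ⟨ρ, hρ⟩ := key true
  obtain ⟨ρ', hρ'⟩ := key false
  exact h2 _ ρ ρ' ⟨hρ, hρ'⟩

/-- Both truth values occur in the omega-jump. -/
theorem omega_values : ∃ v : Bool → ℕ, ∀ b, Omega (v b) = b := by
  obtain ⟨N, -, hN⟩ := exists_neg
  refine ⟨fun b => if b = true then Nat.pair 1 (N 0) else Nat.pair 0 0, fun b => ?_⟩
  cases b with
  | true =>
    simp only [Omega, if_true, Nat.unpair_pair]
    exact (hN (Jmp 0) 0).1 rfl
  | false =>
    simp [Omega, Jmp]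

theorem AA_not_computable (h : Computable AA) : False := by
  obtain ⟨v, hv⟩ := omega_values
  have h1 : Computable v := (Primrec.dom_bool v).to_comp
  exact AA_not_m (h1.comp h) fun m => (hv (AA m)).symm

/-- The main property of `AA`. -/
theorem diag {B : ℕ → Bool} (h1 : TLe B AA) (h2 : TLe AA B) {f : ℕ → ℕ} (hf : Computable f)
    (hfB : ∀ m, B m = Omega (f m)) : False := by
  obtain ⟨E, hE, mE, eE⟩ := tLe_iff_SI.1 h1
  obtain ⟨σ, hσ, h3⟩ := req hE mE eE hf hfB
  -- then `B` is computable
  have hB : Computable B := by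
    refine computable_of_graph ?_
    have h4 : S1 fun x : ℕ × Bool => ∃ ρ : List Bool, E (σ ++ ρ, x) :=
      S1.ex (hE.comp ((Primrec.list_append.comp (Primrec.const σ) Primrec.snd).pair Primrec.fst))
    refine h4.of_eq ?_
    have h5 : ∀ x : ℕ × Bool, B x.1 = x.2 → ∃ ρ : List Bool, E (σ ++ ρ, x) := by
      intro x hx
      obtain ⟨s, hs⟩ := (eE x).1 hx
      refine ⟨(pre AA (max s σ.length)).drop σ.length, ?_⟩
      have h6 : σ ++ (pre AA (max s σ.length)).drop σ.length = pre AA (max s σ.length) := by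
        have h7 : (pre AA (max s σ.length)).take σ.length = σ := by
          rw [take_pre _ _ _ (le_max_right _ _), ← hσ]
        conv_rhs => rw [← List.take_append_drop σ.length (pre AA (max s σ.length)), h7]
      rw [h6]
      exact mE _ _ _ (pre_prefix _ (le_max_left _ _)) hs
    rintro ⟨n, b⟩
    constructor
    · rintro ⟨ρ, hρ⟩
      by_contra hcon
      have h8 : B n = !b := by
        generalize B n = t at hcon ⊢
        revert hcon
        cases t <;> cases b <;> simp
      obtain ⟨ρ', hρ'⟩ := h5 (n, !b) h8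
      cases b with
      | true => exact h3 n ρ ρ' ⟨hρ, hρ'⟩
      | false => exact h3 n ρ' ρ ⟨hρ', hρ⟩
    · exact h5 (n, b)
  refine AA_not_computable (computable_of_graph ?_)
  obtain ⟨F, hF, mF, eF⟩ := tLe_iff_SI.1 h2
  have h9 : S1 fun x : ℕ × Bool => ∃ s : ℕ, F (pre B s, x) := by
    refine S1.ex (hF.comp_computable (f := fun y : (ℕ × Bool) × ℕ => (pre B y.2, y.1)) ?_)
    have h10 : Computable fun s : ℕ => pre B s := by
      have h11 := Computable.nat_rec (f := fun s : ℕ => s) (g := fun _ => ([] : List Bool))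
        (h := fun (_ : ℕ) (p : ℕ × List Bool) => p.2 ++ [B p.1]) Computable.id
        (Computable.const []) (Computable.list_append.comp (Computable.snd.comp Computable.snd)
          (Computable.list_cons.comp (hB.comp (Computable.fst.comp Computable.snd))
            (Computable.const [])))
      refine h11.of_eq fun s => ?_
      induction s with
      | zero => rfl
      | succ s ih =>
        rw [pre_succ, ← ih]
    exact (h10.comp Computable.snd).pair Computable.fst
  exact h9.of_eq fun x => (eF x).symm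

end Pool.Agent.V11253.TD
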