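import Pool.Agent.V11253.TD.Diag

set_option autoImplicit false
set_option linter.unusedVariables false

/-!
The theory of a computable structure is many-one reducible to the omega-jump.
-/

namespace Pool.Agent.V11253.TD

open Encodable Pool.Agent.Helper227 FirstOrder
open Nat.Partrec (Code)

section sr

variable {α σ : Type*}

/-- The table of the values of the function defined by strong recursion with the step `s`. -/
def tb (s : List σ → σ) : ℕ → List σ
  | 0 => []
  | n + 1 => tb s n ++ [s (tb s n)]

@[simp] theorem tb_len (s : List σ → σ) (n : ℕ) : (tb s n).length = n := by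
  induction n with
  | zero => rfl
  | succ n ih => simp [tb, ih]

theorem tb_getElem? (s : List σ → σ) {n i : ℕ} (h : i < n) : (tb s n)[i]? = some (s (tb s i)) := by
  induction n with
  | zero => omega
  | succ n ih =>
    rcases Nat.lt_or_ge i n with h1 | h1
    · rw [tb, List.getElem?_append_left (by simpa using h1)]
      exact ih h1
    · have : i = n := by omega
      subst this
      rw [tb, List.getElem?_append_right (by simp)]
      simp

theorem tb_getD (s : List σ → σ) {n i : ℕ} (h : i < n) (d : σ) :
    (tb s n).getD i d = s (tb s i) := by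
  rw [List.getD_eq_getElem?_getD, tb_getElem? s h, Option.getD_some]

theorem computable_tb [Primcodable α] [Primcodable σ] {s : α → List σ → σ} (hs : Computable₂ s) :
    Computable₂ fun a n => tb (s a) n := by
  have h := Computable.nat_rec (f := fun p : α × ℕ => p.2) (g := fun _ => ([] : List σ))
    (h := fun (p : α × ℕ) (q : ℕ × List σ) => q.2 ++ [s p.1 q.2]) Computable.snd
    (Computable.const []) (Computable.list_append.comp (Computable.snd.comp Computable.snd)
      (Computable.list_cons.comp (hs.comp (Computable.fst.comp Computable.fst)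
        (Computable.snd.comp Computable.snd)) (Computable.const [])))
  refine h.of_eq ?_
  rintro ⟨a, n⟩
  induction n with
  | zero => rfl
  | succ n ih =>
    show _ ++ [s a _] = tb (s a) n ++ [s a (tb (s a) n)]
    have h2 : (Nat.rec (motive := fun _ => List σ) ([] : List σ)
        (fun y IH => (y, IH).2 ++ [s (a, n).1 (y, IH).2]) n) = tb (s a) n := ih
    exact congrArg (fun V : List σ => V ++ [s a V]) h2

end sr

theorem mem_lt_encode {L : List ℕ} {d : ℕ} (h : d ∈ L) : d < encode L := by
  induction L with
  | nil => simp at h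
  | cons a L ih =>
    rw [encode_list_cons]
    rcases List.mem_cons.1 h with rfl | h
    · exact Nat.lt_succ_of_le (Nat.left_le_pair _ _)
    · exact (ih h).trans_le ((Nat.right_le_pair _ _).trans (Nat.le_succ _))

/-- The signature whose function symbols (relation symbols) are the numbers `i` for which `fa i`
(`ra i`) is defined; its value is the number of arguments. -/
def Sig (fa ra : ℕ → Option ℕ) : FirstOrder.Language.{0, 0} where
  Functions n := {i : ℕ // fa i = some n}
  Relations n := {i : ℕ // ra i = some n}

section

variable {fa ra : ℕ → Option ℕ}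

/-- The Goedel number of a term. -/
def gt {k : ℕ} : (Sig fa ra).Term (Empty ⊕ Fin k) → ℕ
  | .var (Sum.inl e) => e.elim
  | .var (Sum.inr i) => Nat.pair 0 i
  | .func f ts => Nat.pair 1 (Nat.pair f.1 (encode (List.ofFn fun i => gt (ts i))))

/-- The Goedel number of a formula. -/
def gn : {k : ℕ} → (Sig fa ra).BoundedFormula Empty k → ℕ
  | _, .falsum => Nat.pair 2 0
  | _, .equal t s => Nat.pair 3 (Nat.pair (gt t) (gt s))
  | _, .rel R ts => Nat.pair 4 (Nat.pair R.1 (encode (List.ofFn fun i => gt (ts i))))
  | _, .imp φ ψ => Nat.pair 5 (Nat.pair (gn φ) (gn ψ))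
  | _, .all φ => Nat.pair 6 (gn φ)

end

/-- The list with code `m`. -/
def lst (m : ℕ) : List ℕ := Denumerable.ofNat (List ℕ) m

theorem primrec_lst : Primrec lst := Primrec.ofNat (List ℕ)

@[simp] theorem lst_encode (L : List ℕ) : lst (encode L) = L := Denumerable.ofNat_encode L

theorem encode_lst (m : ℕ) : encode (lst m) = m := Denumerable.encode_ofNat m

attribute [irreducible] lst

section eval

/-- The step of the evaluation of terms. -/
def stv (F : ℕ → List ℕ → ℕ) (a : List ℕ) (V : List ℕ) : ℕ :=
  if V.length.unpair.1 = 0 then a.getD V.length.unpair.2 0 else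
    F V.length.unpair.2.unpair.1
      ((lst V.length.unpair.2.unpair.2).map fun c => V.getD c 0)

theorem computable_stv {F : ℕ → List ℕ → ℕ} (hF : Computable₂ F) : Computable₂ (stv F) := by
  have hl : Primrec fun p : List ℕ × List ℕ => p.2.length.unpair :=
    Primrec.unpair.comp (Primrec.list_length.comp Primrec.snd)
  have h1 : Primrec fun p : List ℕ × List ℕ => p.1.getD p.2.length.unpair.2 0 :=
    (Primrec.list_getD 0).comp Primrec.fst (Primrec.snd.comp hl)
  have h2 : Primrec fun p : List ℕ × List ℕ =>
      (lst p.2.length.unpair.2.unpair.2).map fun c => p.2.getD c 0 := by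
    refine Primrec.list_map (primrec_lst.comp (Primrec.snd.comp (Primrec.unpair.comp
      (Primrec.snd.comp hl)))) ?_
    exact (Primrec.list_getD 0).comp (Primrec.snd.comp Primrec.fst) Primrec.snd
  have h3 : Computable fun p : List ℕ × List ℕ => F p.2.length.unpair.2.unpair.1
      ((lst p.2.length.unpair.2.unpair.2).map fun c => p.2.getD c 0) :=
    hF.comp (Primrec.fst.comp (Primrec.unpair.comp (Primrec.snd.comp hl))).to_comp h2.to_comp
  have h4 : Primrec fun p : List ℕ × List ℕ => decide (p.2.length.unpair.1 = 0) :=
    (Primrec.eq.comp (Primrec.fst.comp hl) (Primrec.const 0)).decide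
  refine (Computable.cond h4.to_comp h1.to_comp h3).of_eq fun p => ?_
  simp only [stv]
  by_cases h : p.2.length.unpair.1 = 0 <;> simp [h]

variable {fa ra : ℕ → Option ℕ}

theorem gt_args_lt {k l : ℕ} {f : (Sig fa ra).Functions l}
    {ts : Fin l → (Sig fa ra).Term (Empty ⊕ Fin k)} (i : Fin l) :
    gt (ts i) < gt (FirstOrder.Language.Term.func f ts) := by
  have h1 : gt (ts i) ∈ List.ofFn fun i => gt (ts i) := by
    rw [List.mem_ofFn]
    exact ⟨i, rfl⟩
  exact (mem_lt_encode h1).trans_le ((Nat.right_le_pair _ _).trans (Nat.right_le_pair _ _))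

/-- Evaluation of terms is correct. -/
theorem stv_term {D : Set ℕ} (S : (Sig fa ra).Structure D) {F : ℕ → List ℕ → ℕ}
    (hF : ∀ (n : ℕ) (f : (Sig fa ra).Functions n) (x : Fin n → D),
      (S.funMap f x : ℕ) = F f.1 (List.ofFn fun i => (x i : ℕ)))
    {k : ℕ} (xs : Fin k → D) (v : Empty → D) (t : (Sig fa ra).Term (Empty ⊕ Fin k)) :
    stv F (List.ofFn fun i => (xs i : ℕ)) (tb (stv F (List.ofFn fun i => (xs i : ℕ))) (gt t)) =
      (t.realize (Sum.elim v xs) : D) := by
  induction t with
  | var i =>
    rcases i with e | i
    · exact e.elim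
    · simp [stv, gt, List.getD_eq_getElem?_getD]
  | func f ts ih =>
    rw [stv, tb_len]
    have h1 : (gt (FirstOrder.Language.Term.func f ts)).unpair = (1, Nat.pair f.1
        (encode (List.ofFn fun i => gt (ts i)))) := by
      rw [gt, Nat.unpair_pair]
    rw [h1]
    simp only [Nat.unpair_pair, lst_encode, one_ne_zero, if_false]
    rw [List.map_ofFn, FirstOrder.Language.Term.realize, hF]
    congr 2
    funext i
    simp only [Function.comp_apply]
    rw [tb_getD _ (gt_args_lt i), ih i]

end eval

end Pool.Agent.V11253.TD
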