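import Pool.Agent.Helper227.RD.Jump

set_option autoImplicit false

/-!
The omega-jump of the empty set, and uniform reductions to it.
-/

namespace Pool.Agent.V11253.TD

open Encodable Pool.Agent.Helper227
open Nat.Partrec (Code)

/-- The finite jumps of the empty set. -/
noncomputable def Jmp : ℕ → ℕ → Bool
  | 0 => fun _ => false
  | n + 1 => jump (Jmp n)

/-- The set of all pairs `(n, x)` such that `x` belongs to the `n`-th jump of the empty set. -/
noncomputable def Omega (m : ℕ) : Bool := Jmp m.unpair.1 m.unpair.2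

section

variable {α β : Type*} [Primcodable α] [Primcodable β]

/-- Uniformly Sigma-one relative to all oracles. -/
def USI (p : (ℕ → Bool) → α → Prop) : Prop :=
  ∃ E : List Bool × α → Prop, S1 E ∧ (∀ σ τ a, σ <+: τ → E (σ, a) → E (τ, a)) ∧
    ∀ B a, p B a ↔ ∃ s, E (pre B s, a)

namespace USI

theorem of_eq {p q : (ℕ → Bool) → α → Prop} (hp : USI p) (h : ∀ B a, p B a ↔ q B a) : USI q := by
  obtain ⟨E, h1, h2, h3⟩ := hp
  exact ⟨E, h1, h2, fun B a => (h B a).symm.trans (h3 B a)⟩

theorem of_s1 {p : α → Prop} (hp : S1 p) : USI fun (_ : ℕ → Bool) a => p a :=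
  ⟨fun x => p x.2, hp.comp Primrec.snd, fun _ _ _ _ h => h, fun _ _ => by simp⟩

theorem comp {p : (ℕ → Bool) → β → Prop} {f : α → β} (hp : USI p) (hf : Computable f) :
    USI fun B a => p B (f a) := by
  obtain ⟨E, hE, mE, eE⟩ := hp
  exact ⟨fun x => E (x.1, f x.2), hE.comp_computable (Computable.fst.pair (hf.comp Computable.snd)),
    fun σ τ a h => mE _ _ _ h, fun B a => eE _ _⟩

theorem and {p q : (ℕ → Bool) → α → Prop} (hp : USI p) (hq : USI q) :
    USI fun B a => p B a ∧ q B a := by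
  obtain ⟨E, hE, mE, eE⟩ := hp
  obtain ⟨F, hF, mF, eF⟩ := hq
  refine ⟨fun x => E x ∧ F x, hE.and hF, fun σ τ a h h2 => ⟨mE _ _ _ h h2.1, mF _ _ _ h h2.2⟩,
    fun B a => ?_⟩
  refine (and_congr (eE B a) (eF B a)).trans ?_
  constructor
  · rintro ⟨⟨s, hs⟩, ⟨t, ht⟩⟩
    exact ⟨max s t, mE _ _ _ (pre_prefix B (le_max_left _ _)) hs,
      mF _ _ _ (pre_prefix B (le_max_right _ _)) ht⟩
  · rintro ⟨s, h1, h2⟩
    exact ⟨⟨s, h1⟩, ⟨s, h2⟩⟩

theorem or {p q : (ℕ → Bool) → α → Prop} (hp : USI p) (hq : USI q) :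
    USI fun B a => p B a ∨ q B a := by
  obtain ⟨E, hE, mE, eE⟩ := hp
  obtain ⟨F, hF, mF, eF⟩ := hq
  refine ⟨fun x => E x ∨ F x, hE.or hF, fun σ τ a h h2 => h2.imp (mE _ _ _ h) (mF _ _ _ h),
    fun B a => ?_⟩
  exact (or_congr (eE B a) (eF B a)).trans exists_or.symm

theorem ex {p : (ℕ → Bool) → α → β → Prop} (hp : USI fun B (x : α × β) => p B x.1 x.2) :
    USI fun B a => ∃ b, p B a b := by
  obtain ⟨E, hE, mE, eE⟩ := hp
  refine ⟨fun x => ∃ b, E (x.1, (x.2, b)), S1.ex (hE.comp ?_), ?_, fun B a => ?_⟩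
  · exact (Primrec.fst.comp Primrec.fst).pair ((Primrec.snd.comp Primrec.fst).pair Primrec.snd)
  · rintro σ τ a h ⟨b, hb⟩
    exact ⟨b, mE _ _ _ h hb⟩
  · constructor
    · rintro ⟨b, hb⟩
      obtain ⟨s, hs⟩ := (eE B (a, b)).1 hb
      exact ⟨s, b, hs⟩
    · rintro ⟨s, b, hs⟩
      exact ⟨b, (eE B (a, b)).2 ⟨s, hs⟩⟩

theorem query : USI fun (B : ℕ → Bool) (x : ℕ × Bool) => B x.1 = x.2 := by
  refine ⟨fun x => x.1[x.2.1]? = some x.2.2, S1.of_prim ?_, ?_, ?_⟩
  · exact Primrec.eq.comp (Primrec.list_getElem?.comp Primrec.fst (Primrec.fst.comp Primrec.snd))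
      (Primrec.option_some.comp (Primrec.snd.comp Primrec.snd))
  · rintro σ τ ⟨n, b⟩ h h2
    simp only at h2 ⊢
    obtain ⟨ρ, rfl⟩ := h
    rw [List.getElem?_append_left]
    · exact h2
    · by_contra hc
      rw [List.getElem?_eq_none (by omega)] at h2
      cases h2
  · rintro B ⟨n, b⟩
    simp only
    constructor
    · rintro rfl
      exact ⟨n + 1, pre_getElem? B _ _ (by omega)⟩
    · rintro ⟨s, hs⟩
      by_cases h : n < s
      · rw [pre_getElem? B _ _ h] at hs
        simpa using hs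
      · rw [pre_getElem?_none B _ _ (by omega)] at hs
        cases hs

theorem si {p : (ℕ → Bool) → α → Prop} (hp : USI p) (B : ℕ → Bool) : SI B (p B) := by
  obtain ⟨E, hE, mE, eE⟩ := hp
  exact ⟨E, hE, mE, fun a => eE B a⟩

/-- Completeness of the jump, uniformly in the oracle. -/
theorem to_jump {p : (ℕ → Bool) → α → Prop} (hp : USI p) :
    ∃ f : α → ℕ, Computable f ∧ ∀ B a, p B a ↔ jump B (f a) = true := by
  obtain ⟨E, hE, mE, eE⟩ := hp
  have h1 : S1 fun m : ℕ => ∃ a : α, ∃ σ : List Bool, ∃ n : ℕ,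
      m = Nat.pair (encode a) (encode (σ, n)) ∧ E (σ, a) := by
    refine S1.ex (S1.ex (S1.ex (S1.and (S1.of_prim ?_) (hE.comp ?_))))
    · refine Primrec.eq.comp (Primrec.fst.comp (Primrec.fst.comp Primrec.fst)) ?_
      refine Primrec₂.natPair.comp (Primrec.encode.comp
        (Primrec.snd.comp (Primrec.fst.comp Primrec.fst))) (Primrec.encode.comp ?_)
      exact (Primrec.snd.comp Primrec.fst).pair Primrec.snd
    · exact (Primrec.snd.comp Primrec.fst).pair (Primrec.snd.comp (Primrec.fst.comp Primrec.fst))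
  obtain ⟨c, hc⟩ := Nat.Partrec.Code.exists_code.1 h1.re
  refine ⟨fun a => encode (Code.curry c (encode a)), ?_, fun B a => ?_⟩
  · have h2 : Primrec fun a : α => Code.curry c (encode a) :=
      Nat.Partrec.Code.primrec₂_curry.comp (Primrec.const c) Primrec.encode
    exact (Primrec.encode.comp h2).to_comp
  · rw [jump_eq_true]
    simp only [WE, Set.mem_ofPred_eq, Denumerable.ofNat_encode, Nat.Partrec.Code.eval_curry]
    rw [eE, hc]
    refine exists_congr fun k => ?_
    simp [Part.assert, pre]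

end USI

end

/-- Complements are reducible to the jump, uniformly. -/
theorem exists_neg : ∃ N : ℕ → ℕ, Computable N ∧ ∀ (B : ℕ → Bool) m,
    B m = false ↔ jump B (N m) = true :=
  (USI.query.comp (f := fun m : ℕ => (m, false))
    (Computable.id.pair (Computable.const false))).to_jump

/-- The iteration of a complement of a uniformly c.e. operator. `Q c n B w` is the operator applied
to the set of all `v` such that the value of the program `c` at `(n, v)` is in `B`. -/
theorem iterate {W : Type} [Denumerable W] (Qop : (W → Prop) → W → Prop)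
    (hQ : ∃ QB : (ℕ → Bool) → (Code × ℕ) × W → Prop, USI QB ∧
      ∀ (B : ℕ → Bool) (c : Code) (n : ℕ) (g : W → ℕ),
        (∀ v, c.eval (Nat.pair n (encode v)) = Part.some (g v)) →
        ∀ w, QB B ((c, n), w) ↔ Qop (fun v => B (g v) = true) w) :
    ∃ g : ℕ → W → ℕ, Computable₂ g ∧ ∀ T : ℕ → W → Prop, (∀ w, ¬ T 0 w) →
      (∀ n w, T (n + 1) w ↔ ¬ Qop (T n) w) → ∀ n w, T n w ↔ Jmp (2 * n) (g n w) = true := by
  obtain ⟨QB, hQB, hQ2⟩ := hQ
  obtain ⟨N, hN, hN2⟩ := exists_neg
  obtain ⟨G, hG, hG2⟩ := hQB.to_jump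
  let F : Code → ℕ → ℕ := fun c m => if m.unpair.1 = 0 then 0 else
    N (G ((c, m.unpair.1 - 1), Denumerable.ofNat W m.unpair.2))
  have hF : Computable₂ F := by
    have h1 : Computable fun p : Code × ℕ => p.2.unpair.1 :=
      Computable.fst.comp (Computable.unpair.comp Computable.snd)
    have h2 : Computable fun p : Code × ℕ => p.2.unpair.2 :=
      Computable.snd.comp (Computable.unpair.comp Computable.snd)
    have h3 : Computable fun p : Code × ℕ =>
        N (G ((p.1, p.2.unpair.1 - 1), Denumerable.ofNat W p.2.unpair.2)) := by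
      refine hN.comp (hG.comp (Computable.pair (Computable.pair Computable.fst ?_) ?_))
      · exact (Primrec.pred.to_comp.comp h1).of_eq fun p => rfl
      · exact (Primrec.ofNat W).to_comp.comp h2
    have h4 : Computable fun p : Code × ℕ => decide (p.2.unpair.1 = 0) :=
      (Primrec.eq.comp (Primrec.fst.comp (Primrec.unpair.comp Primrec.snd))
        (Primrec.const 0)).decide.to_comp
    refine (Computable.cond h4 (Computable.const 0) h3).of_eq fun p => ?_
    simp only [F]
    by_cases h : p.2.unpair.1 = 0 <;> simp [h]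
  obtain ⟨c, hc⟩ := Nat.Partrec.Code.fixed_point₂ (f := fun c m => Part.some (F c m))
    hF.partrec
  refine ⟨fun n w => F c (Nat.pair n (encode w)), ?_, ?_⟩
  · exact hF.comp (Computable.const c) ((Primrec₂.natPair.comp Primrec.fst
      (Primrec.encode.comp Primrec.snd)).to_comp)
  · intro T hT0 hTs n
    induction n with
    | zero =>
      intro w
      simp [hT0 w, Jmp]
    | succ n ih =>
      intro w
      have h1 := hQ2 (Jmp (2 * n)) c n (fun v => F c (Nat.pair n (encode v)))
        (fun v => by rw [hc]) w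
      have h2 : (fun v => Jmp (2 * n) (F c (Nat.pair n (encode v))) = true) = T n := by
        funext v
        exact propext (ih v).symm
      rw [h2] at h1
      have h3 : F c (Nat.pair (n + 1) (encode w)) = N (G ((c, n), w)) := by
        simp [F]
      have h4 : Jmp (2 * (n + 1)) = jump (jump (Jmp (2 * n))) := rfl
      show T (n + 1) w ↔ Jmp (2 * (n + 1)) (F c (Nat.pair (n + 1) (encode w))) = true
      rw [hTs, ← h1, hG2, h3, h4, ← hN2]
      simp

end Pool.Agent.V11253.TD
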