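import Pool.Agent.V11253.TD.Fml

set_option autoImplicit false
set_option linter.unusedVariables false

/-!
Satisfaction in a computable structure and the jumps of the empty set.
-/

namespace Pool.Agent.V11253.TD

open Encodable Pool.Agent.Helper227 FirstOrder
open Nat.Partrec (Code)

/-- The value of the term with code `c` in the table for the formula with code `m`. -/
def tv (F : ℕ → List ℕ → ℕ) (a : List ℕ) (m c : ℕ) : ℕ := (tb (stv F a) m).getD c 0

section op

variable (F : ℕ → List ℕ → ℕ) (G : ℕ → List ℕ → Bool) (D : Set ℕ)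

/-- The formula with code `w.1` is false for the assignment `w.2`, if `T` is the truth of its
immediate subformulas. -/
def Qop (T : ℕ × List ℕ → Prop) (w : ℕ × List ℕ) : Prop :=
  w.1.unpair.1 = 2 ∨
  (w.1.unpair.1 = 3 ∧ tv F w.2 w.1 w.1.unpair.2.unpair.1 ≠ tv F w.2 w.1 w.1.unpair.2.unpair.2) ∨
  (w.1.unpair.1 = 4 ∧ G w.1.unpair.2.unpair.1
    ((lst w.1.unpair.2.unpair.2).map fun c => tv F w.2 w.1 c) = false) ∨
  (w.1.unpair.1 = 5 ∧ T (w.1.unpair.2.unpair.1, w.2) ∧ ¬ T (w.1.unpair.2.unpair.2, w.2)) ∨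
  (w.1.unpair.1 = 6 ∧ ∃ z : ℕ, z ∈ D ∧ ¬ T (w.1.unpair.2, w.2 ++ [z]))

/-- The value of the program `p.1` at `(p.2, v)` is in the oracle or not. -/
def QT (B : ℕ → Bool) (p : Code × ℕ) (v : ℕ × List ℕ) (b : Bool) : Prop :=
  ∃ m : ℕ, m ∈ p.1.eval (Nat.pair p.2 (encode v)) ∧ B m = b

def QB (B : ℕ → Bool) (x : (Code × ℕ) × (ℕ × List ℕ)) : Prop :=
  x.2.1.unpair.1 = 2 ∨
  (x.2.1.unpair.1 = 3 ∧
    tv F x.2.2 x.2.1 x.2.1.unpair.2.unpair.1 ≠ tv F x.2.2 x.2.1 x.2.1.unpair.2.unpair.2) ∨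
  (x.2.1.unpair.1 = 4 ∧ G x.2.1.unpair.2.unpair.1
    ((lst x.2.1.unpair.2.unpair.2).map fun c => tv F x.2.2 x.2.1 c) = false) ∨
  (x.2.1.unpair.1 = 5 ∧ QT B x.1 (x.2.1.unpair.2.unpair.1, x.2.2) true ∧
    QT B x.1 (x.2.1.unpair.2.unpair.2, x.2.2) false) ∨
  (x.2.1.unpair.1 = 6 ∧ ∃ z : ℕ, z ∈ D ∧ QT B x.1 (x.2.1.unpair.2, x.2.2 ++ [z]) false)

end op

theorem usi_QT {α : Type} [Primcodable α] {p : α → Code × ℕ} {v : α → ℕ × List ℕ}
    (hp : Primrec p) (hv : Primrec v) (b : Bool) : USI fun B a => QT B (p a) (v a) b := by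
  unfold QT
  refine USI.ex (p := fun B a m => m ∈ (p a).1.eval (Nat.pair (p a).2 (encode (v a))) ∧ B m = b)
    (USI.and (USI.of_s1 ?_) ?_)
  · have h1 : S1 fun x : (Code × ℕ) × ℕ => x.2 ∈ x.1.1.eval x.1.2 := by
      have h2 : S1 fun x : (Code × ℕ) × ℕ => ∃ k : ℕ, Code.evaln k x.1.1 x.1.2 = some x.2 := by
        refine S1.ex (S1.of_prim ?_)
        exact Primrec.eq.comp (Nat.Partrec.Code.primrec_evaln.comp
          ((Primrec.snd.pair (Primrec.fst.comp (Primrec.fst.comp Primrec.fst))).pair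
            (Primrec.snd.comp (Primrec.fst.comp Primrec.fst))))
          (Primrec.option_some.comp (Primrec.snd.comp Primrec.fst))
      refine h2.of_eq fun x => ?_
      exact Nat.Partrec.Code.evaln_complete.symm
    refine h1.comp (f := fun x : α × ℕ => (((p x.1).1, Nat.pair (p x.1).2 (encode (v x.1))), x.2)) ?_
    exact ((Primrec.fst.comp (hp.comp Primrec.fst)).pair (Primrec₂.natPair.comp
      (Primrec.snd.comp (hp.comp Primrec.fst)) (Primrec.encode.comp (hv.comp Primrec.fst)))).pair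
      Primrec.snd
  · exact USI.query.comp (f := fun x : α × ℕ => (x.2, b))
      (Computable.snd.pair (Computable.const b))

theorem usi_QB {F : ℕ → List ℕ → ℕ} {G : ℕ → List ℕ → Bool} {D : Set ℕ} (hF : Computable₂ F)
    (hG : Computable₂ G) (hD : ComputablePred fun n => n ∈ D) : USI (QB F G D) := by
  have hx : Primrec fun x : (Code × ℕ) × (ℕ × List ℕ) => x.2.1.unpair :=
    Primrec.unpair.comp (Primrec.fst.comp Primrec.snd)
  have htag : ∀ t : ℕ, USI fun (_ : ℕ → Bool) (x : (Code × ℕ) × (ℕ × List ℕ)) =>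
      x.2.1.unpair.1 = t := fun t =>
    USI.of_s1 (S1.of_prim (Primrec.eq.comp (Primrec.fst.comp hx) (Primrec.const t)))
  have hl : Primrec fun x : (Code × ℕ) × (ℕ × List ℕ) => x.2.1.unpair.2.unpair.1 :=
    Primrec.fst.comp (Primrec.unpair.comp (Primrec.snd.comp hx))
  have hr : Primrec fun x : (Code × ℕ) × (ℕ × List ℕ) => x.2.1.unpair.2.unpair.2 :=
    Primrec.snd.comp (Primrec.unpair.comp (Primrec.snd.comp hx))
  have ha : Primrec fun x : (Code × ℕ) × (ℕ × List ℕ) => x.2.2 := Primrec.snd.comp Primrec.snd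
  have htb : Computable fun x : (Code × ℕ) × (ℕ × List ℕ) => tb (stv F x.2.2) x.2.1 :=
    (computable_tb (computable_stv hF)).comp ha.to_comp (Primrec.fst.comp Primrec.snd).to_comp
  refine USI.or (htag 2) (USI.or (USI.and (htag 3) (USI.of_s1 ?_))
    (USI.or (USI.and (htag 4) (USI.of_s1 ?_)) (USI.or (USI.and (htag 5) (USI.and ?_ ?_))
      (USI.and (htag 6) ?_))))
  · have h1 : PrimrecPred fun y : List ℕ × ℕ × ℕ => ¬ y.1.getD y.2.1 0 = y.1.getD y.2.2 0 :=
      PrimrecPred.not (Primrec.eq.comp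
        ((Primrec.list_getD 0).comp Primrec.fst (Primrec.fst.comp Primrec.snd))
        ((Primrec.list_getD 0).comp Primrec.fst (Primrec.snd.comp Primrec.snd)))
    have h2 : Computable fun x : (Code × ℕ) × (ℕ × List ℕ) =>
        (tb (stv F x.2.2) x.2.1, x.2.1.unpair.2.unpair.1, x.2.1.unpair.2.unpair.2) :=
      htb.pair (hl.to_comp.pair hr.to_comp)
    have h3 := (S1.of_prim h1).comp_computable h2
    refine h3.of_eq fun x => ?_
    simp only [tv, ne_eq]
  · have h1 : Primrec fun y : List ℕ × ℕ => (lst y.2).map fun c => y.1.getD c 0 := by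
      refine Primrec.list_map (primrec_lst.comp Primrec.snd) ?_
      exact (Primrec.list_getD 0).comp (Primrec.fst.comp Primrec.fst) Primrec.snd
    have h3 := h1.to_comp.comp (htb.pair hr.to_comp)
    have h4 := hG.comp hl.to_comp h3
    have h5 : S1 fun b : Bool => b = false :=
      S1.of_prim (Primrec.eq.comp Primrec.id (Primrec.const false))
    have h6 := h5.comp_computable h4
    refine h6.of_eq fun x => ?_
    simp only [tv]
  · exact usi_QT Primrec.fst (hl.pair ha) true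
  · exact usi_QT Primrec.fst (hr.pair ha) false
  · refine USI.ex (p := fun B (x : (Code × ℕ) × (ℕ × List ℕ)) (z : ℕ) =>
      z ∈ D ∧ QT B x.1 (x.2.1.unpair.2, x.2.2 ++ [z]) false) (USI.and (USI.of_s1 ?_) ?_)
    · exact (S1.of_re hD.to_re).comp (f := fun y : ((Code × ℕ) × (ℕ × List ℕ)) × ℕ => y.2)
        Primrec.snd
    · refine usi_QT (α := ((Code × ℕ) × (ℕ × List ℕ)) × ℕ) (p := fun y => y.1.1)
        (v := fun y => (y.1.2.1.unpair.2, y.1.2.2 ++ [y.2])) (Primrec.fst.comp Primrec.fst) ?_ false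
      refine (Primrec.snd.comp (hx.comp Primrec.fst)).pair (Primrec.list_append.comp
        (ha.comp Primrec.fst) (Primrec.list_cons.comp Primrec.snd (Primrec.const [])))

theorem QB_iff {F : ℕ → List ℕ → ℕ} {G : ℕ → List ℕ → Bool} {D : Set ℕ} (B : ℕ → Bool) (c : Code)
    (n : ℕ) (g : ℕ × List ℕ → ℕ)
    (hg : ∀ v, c.eval (Nat.pair n (encode v)) = Part.some (g v)) (w : ℕ × List ℕ) :
    QB F G D B ((c, n), w) ↔ Qop F G D (fun v => B (g v) = true) w := by
  have h1 : ∀ v b, QT B (c, n) v b ↔ B (g v) = b := by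
    intro v b
    unfold QT
    simp only [hg, Part.mem_some_iff]
    constructor
    · rintro ⟨m, rfl, h⟩
      exact h
    · intro h
      exact ⟨_, rfl, h⟩
  unfold QB Qop
  simp only [h1]
  simp

/-- The truth predicates. -/
def Tr (F : ℕ → List ℕ → ℕ) (G : ℕ → List ℕ → Bool) (D : Set ℕ) : ℕ → ℕ × List ℕ → Prop
  | 0 => fun _ => False
  | n + 1 => fun w => ¬ Qop F G D (Tr F G D n) w

theorem exists_red {F : ℕ → List ℕ → ℕ} {G : ℕ → List ℕ → Bool} {D : Set ℕ} (hF : Computable₂ F)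
    (hG : Computable₂ G) (hD : ComputablePred fun n => n ∈ D) :
    ∃ g : ℕ → ℕ × List ℕ → ℕ, Computable₂ g ∧
      ∀ n w, Tr F G D n w ↔ Jmp (2 * n) (g n w) = true := by
  obtain ⟨g, hg, h⟩ := iterate (W := ℕ × List ℕ) (Qop F G D) ⟨QB F G D, usi_QB hF hG hD, QB_iff⟩
  exact ⟨g, hg, h (Tr F G D) (fun w h => h) (fun n w => Iff.rfl)⟩

section

variable {fa ra : ℕ → Option ℕ}

theorem tv_term {D : Set ℕ} (S : (Sig fa ra).Structure D) {F : ℕ → List ℕ → ℕ}
    (hF : ∀ (n : ℕ) (f : (Sig fa ra).Functions n) (x : Fin n → D),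
      (S.funMap f x : ℕ) = F f.1 (List.ofFn fun i => (x i : ℕ)))
    {k : ℕ} (xs : Fin k → D) (v : Empty → D) (t : (Sig fa ra).Term (Empty ⊕ Fin k)) {m : ℕ}
    (h : gt t < m) :
    tv F (List.ofFn fun i => (xs i : ℕ)) m (gt t) = (t.realize (Sum.elim v xs) : D) := by
  rw [tv, tb_getD _ h, stv_term S hF xs v t]

/-- Correctness of the truth predicates. -/
theorem tr_iff {D : Set ℕ} (S : (Sig fa ra).Structure D) {F : ℕ → List ℕ → ℕ}
    {G : ℕ → List ℕ → Bool}
    (hF : ∀ (n : ℕ) (f : (Sig fa ra).Functions n) (x : Fin n → D),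
      (S.funMap f x : ℕ) = F f.1 (List.ofFn fun i => (x i : ℕ)))
    (hG : ∀ (n : ℕ) (R : (Sig fa ra).Relations n) (x : Fin n → D),
      S.RelMap R x ↔ G R.1 (List.ofFn fun i => (x i : ℕ)) = true)
    {k : ℕ} (φ : (Sig fa ra).BoundedFormula Empty k) : ∀ (n : ℕ) (v : Empty → D) (xs : Fin k → D),
      gn φ < n → (Tr F G D n (gn φ, List.ofFn fun i => (xs i : ℕ)) ↔ φ.Realize v xs) := by
  induction φ with
  | @falsum k' =>
    intro n v xs hn
    obtain ⟨n, rfl⟩ : ∃ m, n = m + 1 := ⟨n - 1, by omega⟩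
    set m := gn (FirstOrder.Language.BoundedFormula.falsum : (Sig fa ra).BoundedFormula Empty k')
      with hm
    have hm' : m = Nat.pair 2 0 := by rw [hm, gn]
    show ¬ Qop F G D (Tr F G D n) (m, _) ↔ _
    unfold Qop
    simp only [hm', Nat.unpair_pair]
    simp [FirstOrder.Language.BoundedFormula.Realize]
  | equal t₁ t₂ =>
    intro n v xs hn
    obtain ⟨n, rfl⟩ : ∃ m, n = m + 1 := ⟨n - 1, by omega⟩
    set m := gn (FirstOrder.Language.BoundedFormula.equal t₁ t₂) with hm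
    have hm' : m = Nat.pair 3 (Nat.pair (gt t₁) (gt t₂)) := by rw [hm, gn]
    have h3 : ∀ b : ℕ, b < Nat.pair 3 b := fun b => by
      unfold Nat.pair
      split <;> nlinarith
    have h1 : gt t₁ < m := by
      rw [hm']
      exact (Nat.left_le_pair _ _).trans_lt (h3 _)
    have h2 : gt t₂ < m := by
      rw [hm']
      exact (Nat.right_le_pair _ _).trans_lt (h3 _)
    show ¬ Qop F G D (Tr F G D n) (m, _) ↔ _
    unfold Qop
    simp only [hm', Nat.unpair_pair]
    rw [← hm', tv_term S hF xs v t₁ h1, tv_term S hF xs v t₂ h2]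
    simp [FirstOrder.Language.BoundedFormula.Realize, Subtype.ext_iff]
  | rel R ts =>
    intro n v xs hn
    obtain ⟨n, rfl⟩ : ∃ m, n = m + 1 := ⟨n - 1, by omega⟩
    set m := gn (FirstOrder.Language.BoundedFormula.rel R ts) with hm
    have hm' : m = Nat.pair 4 (Nat.pair R.1 (encode (List.ofFn fun i => gt (ts i)))) := by
      rw [hm, gn]
    have h1 : ∀ i, gt (ts i) < m := by
      intro i
      have h2 : gt (ts i) ∈ List.ofFn fun i => gt (ts i) := by
        rw [List.mem_ofFn]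
        exact ⟨i, rfl⟩
      rw [hm']
      exact (mem_lt_encode h2).trans_le ((Nat.right_le_pair _ _).trans (Nat.right_le_pair _ _))
    show ¬ Qop F G D (Tr F G D n) (m, _) ↔ _
    unfold Qop
    simp only [hm', Nat.unpair_pair, lst_encode]
    rw [← hm', List.map_ofFn]
    have h4 : ((fun c => tv F (List.ofFn fun i => (xs i : ℕ)) m c) ∘ fun i => gt (ts i)) =
        fun i => (((ts i).realize (Sum.elim v xs) : D) : ℕ) := by
      funext i
      exact tv_term S hF xs v (ts i) (h1 i)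
    rw [h4]
    have h5 := hG _ R fun i => (ts i).realize (Sum.elim v xs)
    simp only [FirstOrder.Language.BoundedFormula.Realize]
    rw [h5]
    simp
  | imp φ ψ ih₁ ih₂ =>
    intro n v xs hn
    obtain ⟨n, rfl⟩ : ∃ m, n = m + 1 := ⟨n - 1, by omega⟩
    set m := gn (FirstOrder.Language.BoundedFormula.imp φ ψ) with hm
    have hm' : m = Nat.pair 5 (Nat.pair (gn φ) (gn ψ)) := by rw [hm, gn]
    have h3 : ∀ b : ℕ, b < Nat.pair 5 b := fun b => by
      unfold Nat.pair
      split <;> nlinarith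
    have h1 : gn φ < n := by
      have : gn φ < m := by
        rw [hm']
        exact (Nat.left_le_pair _ _).trans_lt (h3 _)
      omega
    have h2 : gn ψ < n := by
      have : gn ψ < m := by
        rw [hm']
        exact (Nat.right_le_pair _ _).trans_lt (h3 _)
      omega
    show ¬ Qop F G D (Tr F G D n) (m, _) ↔ _
    unfold Qop
    simp only [hm', Nat.unpair_pair]
    rw [ih₁ n v xs h1, ih₂ n v xs h2]
    simp [FirstOrder.Language.BoundedFormula.Realize]
  | all φ ih =>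
    intro n v xs hn
    obtain ⟨n, rfl⟩ : ∃ m, n = m + 1 := ⟨n - 1, by omega⟩
    set m := gn (FirstOrder.Language.BoundedFormula.all φ) with hm
    have hm' : m = Nat.pair 6 (gn φ) := by rw [hm, gn]
    have h1 : gn φ < n := by
      have : gn φ < m := by
        rw [hm']
        unfold Nat.pair
        split <;> nlinarith
      omega
    show ¬ Qop F G D (Tr F G D n) (m, _) ↔ _
    unfold Qop
    simp only [hm', Nat.unpair_pair]
    have h2 : ∀ z : D, Tr F G D n (gn φ, (List.ofFn fun i => (xs i : ℕ)) ++ [(z : ℕ)]) ↔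
        φ.Realize v (Fin.snoc xs z) := by
      intro z
      rw [← ih n v (Fin.snoc xs z) h1]
      have h3 : (List.ofFn fun i => ((Fin.snoc xs z : Fin _ → D) i : ℕ)) =
          (List.ofFn fun i => (xs i : ℕ)) ++ [(z : ℕ)] := by
        rw [List.ofFn_succ_last]
        simp
      rw [h3]
    simp only [FirstOrder.Language.BoundedFormula.Realize]
    simp only [← h2]
    simp

end

end Pool.Agent.V11253.TD
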