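import Pool.Agent.V11253.TD.Sat

set_option autoImplicit false
set_option linter.unusedVariables false

/-!
The set of the Goedel numbers of sentences is computable.
-/

namespace Pool.Agent.V11253.TD

open Encodable Pool.Agent.Helper227 FirstOrder

/-- The maximum. -/
def mx (a b : Option ℕ) : Option ℕ := a.bind fun x => b.map fun y => max x y

/-- The second component, if the first one is `k`. -/
def sel (k : ℕ) (o : Option (ℕ × ℕ)) : Option ℕ := o.bind fun p => if p.1 = k then some p.2 else none

/-- The maximum for the terms in a list. -/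
def agg (V : List (Option (ℕ × ℕ))) (L : List ℕ) : Option ℕ :=
  L.foldr (fun c r => mx (sel 0 (V.getD c none)) r) (some 0)

/-- The kind of the code `V.length` (`0`: term, `1`: formula) and the number of variables needed, if
`V` is the list of these data for all smaller codes. -/
def stp (A R : Option ℕ) (V : List (Option (ℕ × ℕ))) : Option (ℕ × ℕ) :=
  if V.length.unpair.1 = 0 then some (0, V.length.unpair.2 + 1)
  else if V.length.unpair.1 = 1 then
    (if A = some (lst V.length.unpair.2.unpair.2).length then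
      (agg V (lst V.length.unpair.2.unpair.2)).map fun j => (0, j) else none)
  else if V.length.unpair.1 = 2 then (if V.length.unpair.2 = 0 then some (1, 0) else none)
  else if V.length.unpair.1 = 3 then
    (mx (sel 0 (V.getD V.length.unpair.2.unpair.1 none))
      (sel 0 (V.getD V.length.unpair.2.unpair.2 none))).map fun j => (1, j)
  else if V.length.unpair.1 = 4 then
    (if R = some (lst V.length.unpair.2.unpair.2).length then
      (agg V (lst V.length.unpair.2.unpair.2)).map fun j => (1, j) else none)
  else if V.length.unpair.1 = 5 then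
    (mx (sel 1 (V.getD V.length.unpair.2.unpair.1 none))
      (sel 1 (V.getD V.length.unpair.2.unpair.2 none))).map fun j => (1, j)
  else if V.length.unpair.1 = 6 then
    (sel 1 (V.getD V.length.unpair.2 none)).map fun j => (1, j - 1)
  else none

/-! ### Computability -/

section

variable {α : Type*} [Primcodable α]

theorem primrec_mx {a b : α → Option ℕ} (ha : Primrec a) (hb : Primrec b) :
    Primrec fun x => mx (a x) (b x) := by
  unfold mx
  refine Primrec.option_bind ha (Primrec.option_map (hb.comp Primrec.fst) ?_)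
  exact Primrec.nat_max.comp (Primrec.snd.comp Primrec.fst) Primrec.snd

theorem primrec_sel {k : ℕ} {o : α → Option (ℕ × ℕ)} (ho : Primrec o) :
    Primrec fun x => sel k (o x) := by
  unfold sel
  refine Primrec.option_bind ho (Primrec.ite ?_ ?_ (Primrec.const none))
  · exact Primrec.eq.comp (Primrec.fst.comp Primrec.snd) (Primrec.const k)
  · exact Primrec.option_some.comp (Primrec.snd.comp Primrec.snd)

theorem primrec_agg {V : α → List (Option (ℕ × ℕ))} {L : α → List ℕ} (hV : Primrec V)
    (hL : Primrec L) : Primrec fun x => agg (V x) (L x) := by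
  unfold agg
  refine Primrec.list_foldr (h := fun x (p : ℕ × Option ℕ) =>
    mx (sel 0 ((V x).getD p.1 none)) p.2) hL (Primrec.const (some 0)) ?_
  exact primrec_mx (primrec_sel ((Primrec.list_getD none).comp (hV.comp Primrec.fst)
    (Primrec.fst.comp Primrec.snd))) (Primrec.snd.comp Primrec.snd)

theorem primrec_tagged {k : ℕ} {o : α → Option ℕ} (ho : Primrec o) :
    Primrec fun x => (o x).map fun j => (k, j) :=
  Primrec.option_map ho ((Primrec.const k).pair Primrec.snd)

end

theorem primrec_stp : Primrec fun p : (Option ℕ × Option ℕ) × List (Option (ℕ × ℕ)) =>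
    stp p.1.1 p.1.2 p.2 := by
  have hA : Primrec fun p : (Option ℕ × Option ℕ) × List (Option (ℕ × ℕ)) => p.1.1 :=
    Primrec.fst.comp Primrec.fst
  have hR : Primrec fun p : (Option ℕ × Option ℕ) × List (Option (ℕ × ℕ)) => p.1.2 :=
    Primrec.snd.comp Primrec.fst
  have hV : Primrec fun p : (Option ℕ × Option ℕ) × List (Option (ℕ × ℕ)) => p.2 := Primrec.snd
  have hn : Primrec fun p : (Option ℕ × Option ℕ) × List (Option (ℕ × ℕ)) => p.2.length.unpair :=
    Primrec.unpair.comp (Primrec.list_length.comp Primrec.snd)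
  have ht : ∀ t : ℕ, PrimrecPred fun p : (Option ℕ × Option ℕ) × List (Option (ℕ × ℕ)) =>
      p.2.length.unpair.1 = t := fun t => Primrec.eq.comp (Primrec.fst.comp hn) (Primrec.const t)
  have hr := Primrec.snd.comp hn
  have hr1 := Primrec.fst.comp (Primrec.unpair.comp hr)
  have hr2 := Primrec.snd.comp (Primrec.unpair.comp hr)
  have hL := primrec_lst.comp hr2
  have hag := primrec_agg hV hL
  have hg1 := (Primrec.list_getD (none : Option (ℕ × ℕ))).comp hV hr1
  have hg2 := (Primrec.list_getD (none : Option (ℕ × ℕ))).comp hV hr2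
  have hg := (Primrec.list_getD (none : Option (ℕ × ℕ))).comp hV hr
  unfold stp
  refine Primrec.ite (ht 0) ?_ (Primrec.ite (ht 1) ?_ (Primrec.ite (ht 2) ?_ (Primrec.ite (ht 3) ?_
    (Primrec.ite (ht 4) ?_ (Primrec.ite (ht 5) ?_ (Primrec.ite (ht 6) ?_ (Primrec.const none)))))))
  · exact Primrec.option_some.comp ((Primrec.const 0).pair (Primrec.succ.comp hr))
  · refine Primrec.ite (Primrec.eq.comp hA (Primrec.option_some.comp
      (Primrec.list_length.comp hL))) (primrec_tagged hag) (Primrec.const none)
  · exact Primrec.ite (Primrec.eq.comp hr (Primrec.const 0)) (Primrec.const _) (Primrec.const none)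
  · exact primrec_tagged (primrec_mx (primrec_sel hg1) (primrec_sel hg2))
  · refine Primrec.ite (Primrec.eq.comp hR (Primrec.option_some.comp
      (Primrec.list_length.comp hL))) (primrec_tagged hag) (Primrec.const none)
  · exact primrec_tagged (primrec_mx (primrec_sel hg1) (primrec_sel hg2))
  · refine Primrec.option_map (primrec_sel hg) ((Primrec.const 1).pair
      (Primrec.nat_sub.comp Primrec.snd (Primrec.const 1)))

variable (fa ra : ℕ → Option ℕ)

/-- The step of the recursion. -/
def stw (V : List (Option (ℕ × ℕ))) : Option (ℕ × ℕ) :=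
  stp (fa V.length.unpair.2.unpair.1) (ra V.length.unpair.2.unpair.1) V

/-- The kind of a code and the number of variables. -/
def nd (n : ℕ) : Option (ℕ × ℕ) := stw fa ra (tb (stw fa ra) n)

variable {fa ra}

theorem computable_nd (hf : Computable fa) (hr : Computable ra) : Computable (nd fa ra) := by
  have h1 : Computable (stw fa ra) := by
    have h2 : Computable fun V : List (Option (ℕ × ℕ)) => V.length.unpair.2.unpair.1 :=
      (Primrec.fst.comp (Primrec.unpair.comp (Primrec.snd.comp (Primrec.unpair.comp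
        Primrec.list_length)))).to_comp
    exact primrec_stp.to_comp.comp (((hf.comp h2).pair (hr.comp h2)).pair Computable.id)
  have h3 : Computable fun n : ℕ => tb (stw fa ra) n :=
    (computable_tb (α := Unit) (s := fun _ => stw fa ra) (h1.comp Computable.snd)).comp
      (Computable.const ()) Computable.id
  exact h1.comp h3

/-! ### Correctness -/

/-- The value is at most `k`. -/
def Lk (k : ℕ) (o : Option ℕ) : Prop := ∃ j ≤ k, o = some j

theorem lk_mx {k : ℕ} {a b : Option ℕ} : Lk k (mx a b) ↔ Lk k a ∧ Lk k b := by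
  cases a with
  | none => simp [Lk, mx]
  | some a =>
    cases b with
    | none => simp [Lk, mx]
    | some b => simp [Lk, mx]

theorem lk_sel {k t : ℕ} {o : Option (ℕ × ℕ)} :
    Lk k (sel t o) ↔ ∃ j ≤ k, o = some (t, j) := by
  cases o with
  | none => simp [Lk, sel]
  | some p =>
    obtain ⟨a, b⟩ := p
    simp only [Lk, sel, Option.bind_some, Option.some.injEq, Prod.mk.injEq]
    by_cases h : a = t
    · simp [h]
    · simp [h]

theorem lk_agg {k : ℕ} {V : List (Option (ℕ × ℕ))} {L : List ℕ} :
    Lk k (agg V L) ↔ ∀ c ∈ L, ∃ j ≤ k, V.getD c none = some (0, j) := by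
  induction L with
  | nil => simp [Lk, agg]
  | cons a L ih =>
    have : agg V (a :: L) = mx (sel 0 (V.getD a none)) (agg V L) := rfl
    rw [this, lk_mx, ih, lk_sel]
    simp

theorem lk_map {k t : ℕ} {o : Option ℕ} :
    (∃ j ≤ k, (o.map fun j => (t, j)) = some (t, j)) ↔ Lk k o := by
  cases o <;> simp [Lk]

theorem nd_getD {n c : ℕ} (h : c < n) :
    (tb (stw fa ra) n).getD c none = nd fa ra c := tb_getD _ h none

theorem unpair_lt {n t r : ℕ} (h : n = Nat.pair t r) (ht : 0 < t) : r < n := by
  rw [h]
  unfold Nat.pair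
  split <;> nlinarith

theorem lst_lt {n t r c : ℕ} (h : n = Nat.pair t r) (hc : c ∈ lst r.unpair.2) : c < n := by
  have h1 := mem_lt_encode hc
  rw [encode_lst] at h1
  rw [h]
  exact (h1.trans_le (Nat.unpair_right_le _)).trans_le (Nat.right_le_pair _ _)

theorem nd_eq {n t r : ℕ} (h : n = Nat.pair t r) : nd fa ra n =
    (if t = 0 then some (0, r + 1)
    else if t = 1 then
      (if fa r.unpair.1 = some (lst r.unpair.2).length then
        (agg (tb (stw fa ra) n) (lst r.unpair.2)).map fun j => (0, j) else none)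
    else if t = 2 then (if r = 0 then some (1, 0) else none)
    else if t = 3 then
      (mx (sel 0 ((tb (stw fa ra) n).getD r.unpair.1 none))
        (sel 0 ((tb (stw fa ra) n).getD r.unpair.2 none))).map fun j => (1, j)
    else if t = 4 then
      (if ra r.unpair.1 = some (lst r.unpair.2).length then
        (agg (tb (stw fa ra) n) (lst r.unpair.2)).map fun j => (1, j) else none)
    else if t = 5 then
      (mx (sel 1 ((tb (stw fa ra) n).getD r.unpair.1 none))
        (sel 1 ((tb (stw fa ra) n).getD r.unpair.2 none))).map fun j => (1, j)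
    else if t = 6 then
      (sel 1 ((tb (stw fa ra) n).getD r none)).map fun j => (1, j - 1)
    else none) := by
  have h1 : (tb (stw fa ra) n).length = n := tb_len _ _
  have h2 : n.unpair = (t, r) := by rw [h, Nat.unpair_pair]
  have h3 : nd fa ra n = stw fa ra (tb (stw fa ra) n) := rfl
  rw [h3]
  generalize tb (stw fa ra) n = V at h1 ⊢
  unfold stw stp
  rw [h1, h2]

theorem exists_args {k : ℕ} {L : List ℕ}
    (h : ∀ c ∈ L, ∃ t : (Sig fa ra).Term (Empty ⊕ Fin k), gt t = c) :
    ∃ ts : Fin L.length → (Sig fa ra).Term (Empty ⊕ Fin k), List.ofFn (fun i => gt (ts i)) = L := by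
  have h1 : ∀ i : Fin L.length, ∃ t : (Sig fa ra).Term (Empty ⊕ Fin k), gt t = L.get i :=
    fun i => h _ (List.get_mem _ _)
  choose ts hts using h1
  refine ⟨ts, ?_⟩
  simp only [hts]
  exact List.ofFn_get L

theorem agg_iff {k n t r : ℕ} (h : n = Nat.pair t r)
    (ih : ∀ m < n, ∀ k, (∃ t : (Sig fa ra).Term (Empty ⊕ Fin k), gt t = m) ↔
      ∃ j ≤ k, nd fa ra m = some (0, j)) :
    Lk k (agg (tb (stw fa ra) n) (lst r.unpair.2)) ↔
      ∀ c ∈ lst r.unpair.2, ∃ t : (Sig fa ra).Term (Empty ⊕ Fin k), gt t = c := by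
  rw [lk_agg]
  refine forall_congr' fun c => forall_congr' fun hc => ?_
  have h1 := lst_lt h hc
  rw [nd_getD h1, ih c h1]

theorem nd_term (n : ℕ) : ∀ k, (∃ t : (Sig fa ra).Term (Empty ⊕ Fin k), gt t = n) ↔
    ∃ j ≤ k, nd fa ra n = some (0, j) := by
  induction n using Nat.strong_induction_on with
  | _ n ih =>
    intro k
    obtain ⟨t, r, h⟩ : ∃ t r, n = Nat.pair t r := ⟨n.unpair.1, n.unpair.2, (Nat.pair_unpair n).symm⟩
    have heq := nd_eq (fa := fa) (ra := ra) h
    constructor
    · rintro ⟨s, hs⟩
      rw [h] at hs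
      cases s with
      | var i =>
        rcases i with e | i
        · exact e.elim
        · rw [gt, Nat.pair_eq_pair] at hs
          obtain ⟨rfl, rfl⟩ := hs
          rw [heq]
          exact ⟨i + 1, i.2, by simp⟩
      | @func l f ts =>
        rw [gt, Nat.pair_eq_pair] at hs
        obtain ⟨rfl, rfl⟩ := hs
        rw [heq]
        simp only [one_ne_zero, if_false, if_true, Nat.unpair_pair, lst_encode, List.length_ofFn]
        rw [if_pos f.2, lk_map]
        have h1 := (agg_iff (k := k) h ih).2
        simp only [Nat.unpair_pair, lst_encode] at h1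
        refine h1 fun c hc => ?_
        rw [List.mem_ofFn] at hc
        obtain ⟨i, rfl⟩ := hc
        exact ⟨ts i, rfl⟩
    · rintro ⟨j, hj, hj'⟩
      rw [heq] at hj'
      by_cases h0 : t = 0
      · rw [if_pos h0] at hj'
        simp only [Option.some.injEq, Prod.mk.injEq, true_and] at hj'
        refine ⟨.var (Sum.inr ⟨r, by omega⟩), ?_⟩
        rw [gt, h, h0]
      · rw [if_neg h0] at hj'
        by_cases h1 : t = 1
        · rw [if_pos h1] at hj'
          by_cases h2 : fa r.unpair.1 = some (lst r.unpair.2).length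
          · rw [if_pos h2] at hj'
            obtain ⟨ts, hts⟩ := exists_args ((agg_iff (k := k) h ih).1
              (lk_map.1 ⟨j, hj, hj'⟩))
            refine ⟨.func ⟨r.unpair.1, h2⟩ ts, ?_⟩
            rw [gt, hts, encode_lst, Nat.pair_unpair, h, h1]
          · rw [if_neg h2] at hj'
            cases hj'
        · exfalso
          rw [if_neg h1] at hj'
          split_ifs at hj' <;> simp at hj'

theorem nd_formula (n : ℕ) : ∀ k, (∃ φ : (Sig fa ra).BoundedFormula Empty k, gn φ = n) ↔
    ∃ j ≤ k, nd fa ra n = some (1, j) := by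
  induction n using Nat.strong_induction_on with
  | _ n ih =>
    intro k
    obtain ⟨t, r, h⟩ : ∃ t r, n = Nat.pair t r := ⟨n.unpair.1, n.unpair.2, (Nat.pair_unpair n).symm⟩
    have heq := nd_eq (fa := fa) (ra := ra) h
    have ihT : ∀ m < n, ∀ k, (∃ t : (Sig fa ra).Term (Empty ⊕ Fin k), gt t = m) ↔
      ∃ j ≤ k, nd fa ra m = some (0, j) := fun m _ k => nd_term m k
    constructor
    · rintro ⟨φ, hφ⟩
      rw [h] at hφ
      cases φ with
      | falsum =>
        rw [gn, Nat.pair_eq_pair] at hφ
        obtain ⟨rfl, rfl⟩ := hφ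
        rw [heq]
        exact ⟨0, Nat.zero_le _, by simp⟩
      | equal t₁ t₂ =>
        rw [gn, Nat.pair_eq_pair] at hφ
        obtain ⟨rfl, rfl⟩ := hφ
        have h2 := unpair_lt h (by norm_num)
        have h3 : gt t₁ < n := (Nat.left_le_pair _ _).trans_lt h2
        have h4 : gt t₂ < n := (Nat.right_le_pair _ _).trans_lt h2
        rw [heq]
        simp only [Nat.unpair_pair]
        norm_num only [if_false, if_true]
        rw [lk_map, lk_mx, lk_sel, lk_sel, nd_getD h3, nd_getD h4, ← nd_term, ← nd_term]
        exact ⟨⟨_, rfl⟩, ⟨_, rfl⟩⟩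
      | @rel _ l R ts =>
        rw [gn, Nat.pair_eq_pair] at hφ
        obtain ⟨rfl, rfl⟩ := hφ
        rw [heq]
        simp only [Nat.unpair_pair, lst_encode, List.length_ofFn]
        norm_num only [if_false, if_true]
        rw [if_pos R.2, lk_map]
        have h1 := (agg_iff (k := k) h ihT).2
        simp only [Nat.unpair_pair, lst_encode] at h1
        refine h1 fun c hc => ?_
        rw [List.mem_ofFn] at hc
        obtain ⟨i, rfl⟩ := hc
        exact ⟨ts i, rfl⟩
      | imp φ ψ =>
        rw [gn, Nat.pair_eq_pair] at hφ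
        obtain ⟨rfl, rfl⟩ := hφ
        have h2 := unpair_lt h (by norm_num)
        have h3 : gn φ < n := (Nat.left_le_pair _ _).trans_lt h2
        have h4 : gn ψ < n := (Nat.right_le_pair _ _).trans_lt h2
        rw [heq]
        simp only [Nat.unpair_pair]
        norm_num only [if_false, if_true]
        rw [lk_map, lk_mx, lk_sel, lk_sel, nd_getD h3, nd_getD h4, ← ih _ h3, ← ih _ h4]
        exact ⟨⟨_, rfl⟩, ⟨_, rfl⟩⟩
      | all φ =>
        rw [gn, Nat.pair_eq_pair] at hφ
        obtain ⟨rfl, rfl⟩ := hφ
        have h2 := unpair_lt h (by norm_num)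
        rw [heq]
        norm_num only [if_false, if_true]
        rw [nd_getD h2]
        obtain ⟨j, hj, hj'⟩ := (ih _ h2 (k + 1)).1 ⟨φ, rfl⟩
        rw [hj']
        exact ⟨j - 1, by omega, by simp [sel]⟩
    · rintro ⟨j, hj, hj'⟩
      rw [heq] at hj'
      by_cases h0 : t = 0
      · rw [if_pos h0] at hj'
        simp at hj'
      rw [if_neg h0] at hj'
      by_cases h1 : t = 1
      · rw [if_pos h1] at hj'
        split_ifs at hj'
        simp at hj'
      rw [if_neg h1] at hj'
      by_cases h2 : t = 2
      · rw [if_pos h2] at hj'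
        split_ifs at hj' with h3
        exact ⟨.falsum, by rw [gn, h, h2, h3]⟩
      rw [if_neg h2] at hj'
      have hr := unpair_lt h (by omega)
      have hr1 : r.unpair.1 < n := (Nat.unpair_left_le _).trans_lt hr
      have hr2 : r.unpair.2 < n := (Nat.unpair_right_le _).trans_lt hr
      by_cases h3 : t = 3
      · rw [if_pos h3] at hj'
        have h4 := lk_map.1 ⟨j, hj, hj'⟩
        rw [lk_mx, lk_sel, lk_sel, nd_getD hr1, nd_getD hr2, ← nd_term, ← nd_term] at h4
        obtain ⟨⟨t₁, ht₁⟩, ⟨t₂, ht₂⟩⟩ := h4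
        exact ⟨.equal t₁ t₂, by rw [gn, ht₁, ht₂, Nat.pair_unpair, h, h3]⟩
      rw [if_neg h3] at hj'
      by_cases h4 : t = 4
      · rw [if_pos h4] at hj'
        by_cases h5 : ra r.unpair.1 = some (lst r.unpair.2).length
        · rw [if_pos h5] at hj'
          obtain ⟨ts, hts⟩ := exists_args ((agg_iff (k := k) h ihT).1 (lk_map.1 ⟨j, hj, hj'⟩))
          refine ⟨.rel ⟨r.unpair.1, h5⟩ ts, ?_⟩
          rw [gn, hts, encode_lst, Nat.pair_unpair, h, h4]
        · rw [if_neg h5] at hj'
          cases hj'
      rw [if_neg h4] at hj'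
      by_cases h5 : t = 5
      · rw [if_pos h5] at hj'
        have h6 := lk_map.1 ⟨j, hj, hj'⟩
        rw [lk_mx, lk_sel, lk_sel, nd_getD hr1, nd_getD hr2, ← ih _ hr1, ← ih _ hr2] at h6
        obtain ⟨⟨φ, hφ⟩, ⟨ψ, hψ⟩⟩ := h6
        exact ⟨.imp φ ψ, by rw [gn, hφ, hψ, Nat.pair_unpair, h, h5]⟩
      rw [if_neg h5] at hj'
      by_cases h6 : t = 6
      · rw [if_pos h6, nd_getD hr] at hj'
        obtain ⟨i, hi, hi'⟩ : ∃ i, sel 1 (nd fa ra r) = some i ∧ i - 1 = j := by
          cases hs : sel 1 (nd fa ra r) with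
          | none => rw [hs] at hj'; simp at hj'
          | some i => rw [hs] at hj'; exact ⟨i, rfl, by simpa using hj'⟩
        have h7 : Lk (k + 1) (sel 1 (nd fa ra r)) := ⟨i, by omega, hi⟩
        rw [lk_sel, ← ih _ hr] at h7
        obtain ⟨φ, hφ⟩ := h7
        exact ⟨.all φ, by rw [gn, hφ, h, h6]⟩
      rw [if_neg h6] at hj'
      cases hj'

end Pool.Agent.V11253.TD
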